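import Pool.Agent.Q37.BinReg.Example

/-! Q2 is false: the asymptotic regularity of the symbolic powers of the initial ideal of a
binomial edge ideal can exceed the largest length of an admissible path. -/

open MvPolynomial Filter Topology Q37.BinReg

namespace Pool.Agent.Results.MP_641f76_ag.InitialIdeal

universe u

/-- The assertion of Q2 over the field `K`: for every labelled graph `G` with at least one edge,
`lim reg (in(J_G)^(m)) / m` is the largest length (number of vertices) of an admissible path. -/
def QuestionTwo (K : Type u) [Field K] : Prop :=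
  ∀ (n : ℕ) (G : SimpleGraph (Fin n)), (∃ i j, G.Adj i j) →
    HasAsymptoticReg (initialIdeal (binomialEdgeIdeal K G)) (sSup (admissibleLengths G))

/-- Over every field `K`, for the labelled graph `G9` on nine vertices, the largest length of an
admissible path is `4`, while `reg (in(J_G)^(2k)) ≥ 9 k` for all `k ≥ 1`; so every limit of
`reg (in(J_G)^(m)) / m` is at least `9 / 2 > 4`, and Q2 is false. -/
theorem result (K : Type u) [Field K] :
    IsGreatest (admissibleLengths G9) 4 ∧
    (∀ k : ℕ, 1 ≤ k → ((9 * k : ℕ) : ℕ∞) ≤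
      reg (symbolicPower (initialIdeal (binomialEdgeIdeal K G9)) (2 * k))) ∧
    (∀ L : ENNReal, Tendsto (fun m : ℕ =>
      ((reg (symbolicPower (initialIdeal (binomialEdgeIdeal K G9)) m) : ℕ∞) : ENNReal) /
        (m : ENNReal)) atTop (𝓝 L) → 9 / 2 ≤ L) ∧
    ¬ QuestionTwo K := by
  have hlim : ∀ L : ENNReal, Tendsto (fun m : ℕ =>
      ((reg (symbolicPower (initialIdeal (binomialEdgeIdeal K G9)) m) : ℕ∞) : ENNReal) /
        (m : ENNReal)) atTop (𝓝 L) → 9 / 2 ≤ L := by
    intro L hL
    have h1 : Tendsto (fun k : ℕ => 2 * k) atTop atTop :=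
      tendsto_atTop_mono (fun k => by simp only [id]; omega) tendsto_id
    have h2 := hL.comp h1
    refine ge_of_tendsto h2 ?_
    filter_upwards [eventually_ge_atTop 1] with k hk
    have h3 := reg_ge (K := K) k hk
    have h4 : ((9 * k : ℕ) : ENNReal) ≤
        ((reg (symbolicPower (initialIdeal (binomialEdgeIdeal K G9)) (2 * k)) : ℕ∞) : ENNReal) := by
      have := ENat.toENNReal_le.2 h3
      simpa using this
    change (9 / 2 : ENNReal) ≤ _ / ((2 * k : ℕ) : ENNReal)
    have hk0 : (k : ENNReal) ≠ 0 := by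
      rw [Ne, Nat.cast_eq_zero]; omega
    have e : (9 / 2 : ENNReal) = ((9 * k : ℕ) : ENNReal) / ((2 * k : ℕ) : ENNReal) := by
      push_cast
      rw [ENNReal.mul_div_mul_right _ _ hk0 (ENNReal.natCast_ne_top k)]
    rw [e]
    exact ENNReal.div_le_div_right h4 _
  refine ⟨isGreatest_four, fun k hk => reg_ge k hk, hlim, ?_⟩
  intro hQ
  have h := hQ 9 G9 ⟨0, 2, by decide⟩
  rw [isGreatest_four.csSup_eq] at h
  have h2 := hlim _ h
  have h3 : ((4 : ℕ) : ENNReal) < 9 / 2 := by
    rw [ENNReal.lt_div_iff_mul_lt (Or.inl (by norm_num)) (Or.inl (by norm_num))]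
    norm_num
  exact absurd h2 (not_le.2 h3)

end Pool.Agent.Results.MP_641f76_ag.InitialIdeal
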